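import Pool.Agent.H60.CM.Targets

/-!
Modules INV, NNG: the pointwise formulas do not depend on the basis; the gradient vanishes only
with the derivatives.
-/

set_option autoImplicit false

open scoped Matrix

namespace Pool.Agent.H14.CMS

open Pool.Agent.H60.CM

theorem pf_INV : T_INV := by
  intro a0 a1 n m00 m01 m10 m11 f0 f1 g0 g1 hD
  have h1 : ∀ f0 f1 : ℝ, (m00 * f0 + m01 * f1) • (m10 • a0 + m11 • a1) -
      (m10 * f0 + m11 * f1) • (m00 • a0 + m01 • a1) =
      (m00 * m11 - m01 * m10) • (f0 • a1 - f1 • a0) := by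
    intro f0 f1
    module
  have h2 : (m00 • a0 + m01 • a1) ⨯₃ (m10 • a0 + m11 • a1) =
      (m00 * m11 - m01 * m10) • (a0 ⨯₃ a1) := by
    ext i
    fin_cases i <;> simp [cross_apply] <;> ring
  constructor
  · unfold bil
    rw [h1, h1, h2, smul_dotProduct, dotProduct_smul, smul_dotProduct, dotProduct_smul]
    simp only [smul_eq_mul]
    rw [mul_div_mul_left _ _ hD, mul_div_mul_left _ _ hD]
  · unfold brk
    rw [h2, smul_dotProduct, smul_eq_mul]
    have h3 : (m00 * f0 + m01 * f1) * (m10 * g0 + m11 * g1) -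
        (m10 * f0 + m11 * f1) * (m00 * g0 + m01 * g1) =
        (m00 * m11 - m01 * m10) * (f0 * g1 - f1 * g0) := by ring
    rw [h3, mul_div_mul_left _ _ hD]

theorem pf_NNG : T_NNG := by
  intro a0 a1 f0 f1 h
  have hc : 0 < (a0 ⨯₃ a1) ⬝ᵥ (a0 ⨯₃ a1) := by
    have h1 : 0 ≤ (a0 ⨯₃ a1) ⬝ᵥ (a0 ⨯₃ a1) :=
      Finset.sum_nonneg fun i _ => mul_self_nonneg _
    have h2 : (a0 ⨯₃ a1) ⬝ᵥ (a0 ⨯₃ a1) ≠ 0 := by
      rw [Ne, dotProduct_self_eq_zero]
      exact h
    exact lt_of_le_of_ne h1 (Ne.symm h2)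
  constructor
  · unfold bil
    apply div_nonneg _ hc.le
    exact Finset.sum_nonneg fun i _ => mul_self_nonneg _
  · unfold bil
    constructor
    · intro h0
      rcases div_eq_zero_iff.1 h0 with h1 | h1
      · rw [dotProduct_self_eq_zero, sub_eq_zero] at h1
        constructor
        · have h2 : f0 • (a0 ⨯₃ a1) = 0 := by
            rw [← map_smul, h1, map_smul, cross_self, smul_zero]
          exact (smul_eq_zero.1 h2).resolve_right h
        · have h2 : f1 • (a0 ⨯₃ a1) = 0 := by
            rw [← LinearMap.smul_apply, ← map_smul, ← h1, map_smul, LinearMap.smul_apply,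
              cross_self, smul_zero]
          exact (smul_eq_zero.1 h2).resolve_right h
      · exact absurd h1 hc.ne'
    · rintro ⟨rfl, rfl⟩
      simp

end Pool.Agent.H14.CMS
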