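import Pool.Agent.H60.CM.Targets

/-!
Module UBD: the immersion is open at boundary points.
-/

set_option autoImplicit false

open Set Function MeasureTheory Filter Topology
open scoped Manifold ContDiff Matrix

namespace Pool.Agent.H14.CMS

open Pool.Agent.H60.CM

theorem isClosed_bd (D : Dat) : IsClosed D.bd := by
  have h : IsClosed ((𝓡∂ 2).boundary D.S) :=
    ModelWithCorners.isClosed_boundary (I := 𝓡∂ 2) (M := D.S) (n := ∞) (by simp)
  exact h

theorem int_or_bd (D : Dat) (q : D.S) : q ∈ D.int ∨ q ∈ D.bd := by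
  have h : q ∈ (𝓡∂ 2).interior D.S ∪ (𝓡∂ 2).boundary D.S := by
    rw [ModelWithCorners.interior_union_boundary_eq_univ]
    trivial
  exact h

theorem pf_UBD (h1 : T_ULI) (h2 : T_DNI) : T_UBD := by
  intro D Y K hK hI hB b hb
  have hxc : Continuous D.x := D.cmc.x_smooth.continuous
  have hbij : BijOn D.x D.bd (circ D.r) := D.cmc.circle
  obtain ⟨U1, hU1s, hU1o, hbU1⟩ := mem_nhds_iff.1 (hB b hb)
  obtain ⟨U2, hU2o, hbU2, hinj⟩ := h1 D b
  have hmap : MapsTo D.x (U1 ∩ U2) K := by
    intro q hq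
    rcases int_or_bd D q with h | h
    · exact (hU1s hq.1 h).1
    · exact hK.sub (hbij.mapsTo h)
  refine ⟨U1 ∩ U2, hU1o.inter hU2o, ⟨hbU1, hbU2⟩, hmap, hinj.mono inter_subset_right, ?_⟩
  intro V hVU hVo
  -- the local statement
  have key : ∀ q ∈ V, ∃ G : Set V3, IsOpen G ∧ D.x q ∈ G ∧ G ∩ K ⊆ D.x '' V := by
    intro q hqV
    by_cases hqi : q ∈ D.int
    · obtain ⟨U', hU'o, hqU', -, -, hL⟩ := hI q hqi
      obtain ⟨G, hGo, hG⟩ := hL (V ∩ U') inter_subset_right (hVo.inter hU'o)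
      have hq1 : D.x q ∈ G ∩ Y := by
        rw [← hG]
        exact mem_image_of_mem _ ⟨hqV, hqU'⟩
      refine ⟨G, hGo, hq1.1, ?_⟩
      intro y hy
      have : y ∈ D.x '' (V ∩ U') := by
        rw [hG]
        exact ⟨hy.1, hK.subY hy.2⟩
      exact image_mono inter_subset_left this
    · have hqb : q ∈ D.bd := (int_or_bd D q).resolve_left hqi
      obtain ⟨M, hMc, hqM, hMV⟩ := exists_compact_subset hVo hqV
      have hMi : InjOn D.x M := hinj.mono (hMV.trans (hVU.trans inter_subset_right))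
      have hqM' : q ∈ M := interior_subset hqM
      -- the image of the frontier
      have hTc : IsCompact (D.x '' (M \ interior M)) :=
        (hMc.diff isOpen_interior).image hxc
      have hTq : D.x q ∉ D.x '' (M \ interior M) := by
        rintro ⟨p, hp, hpq⟩
        exact hp.2 (by rw [hMi hp.1 hqM' hpq]; exact hqM)
      have hWc : IsCompact (D.x '' (D.bd \ interior M)) :=
        ((isClosed_bd D).isCompact.diff isOpen_interior).image hxc
      have hWq : D.x q ∉ D.x '' (D.bd \ interior M) := by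
        rintro ⟨p, hp, hpq⟩
        exact hp.2 (by rw [hbij.injOn hp.1 hqb hpq]; exact hqM)
      obtain ⟨Q, hQo, hqQ, hQW, hJ⟩ := hK.nb (D.x q) (hbij.mapsTo hqb)
        ((D.x '' (D.bd \ interior M))ᶜ ∩ (D.x '' (M \ interior M))ᶜ)
        (hWc.isClosed.isOpen_compl.inter hTc.isClosed.isOpen_compl) ⟨hWq, hTq⟩
      -- neighbourhoods of the images of the interior points
      have hG : ∀ m : {m : D.S // m ∈ interior M ∩ D.int}, ∃ G : Set V3, IsOpen G ∧
          D.x m.1 ∈ G ∧ G ∩ Y ⊆ D.x '' M := by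
        rintro ⟨m, hm, hmi⟩
        obtain ⟨U', hU'o, hqU', -, -, hL⟩ := hI m hmi
        obtain ⟨G, hGo, hG⟩ := hL (interior M ∩ U') inter_subset_right
          (isOpen_interior.inter hU'o)
        have hq1 : D.x m ∈ G ∩ Y := by
          rw [← hG]
          exact mem_image_of_mem _ ⟨hm, hqU'⟩
        refine ⟨G, hGo, hq1.1, ?_⟩
        rw [← hG]
        exact image_mono (inter_subset_left.trans interior_subset)
      choose G hGo hGm hGY using hG
      have hJM : (K \ circ D.r) ∩ Q ⊆ D.x '' M := by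
        by_contra hcon
        rw [not_subset] at hcon
        obtain ⟨y0, hy0J, hy0M⟩ := hcon
        have hMcl : IsClosed (D.x '' M) := (hMc.image hxc).isClosed
        have hcov : (K \ circ D.r) ∩ Q ⊆ (⋃ m, G m) ∪ (D.x '' M)ᶜ := by
          intro y hy
          by_cases hyM : y ∈ D.x '' M
          · left
            obtain ⟨m, hm, rfl⟩ := hyM
            have hm1 : m ∈ interior M := by
              by_contra hm1
              exact (hQW hy.2).2 ⟨m, ⟨hm, hm1⟩, rfl⟩
            have hm2 : m ∈ D.int := by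
              rcases int_or_bd D m with h | h
              · exact h
              · exact absurd (hbij.mapsTo h) hy.1.2
            exact mem_iUnion.2 ⟨⟨m, hm1, hm2⟩, hGm ⟨m, hm1, hm2⟩⟩
          · right
            exact hyM
        have hne : (((K \ circ D.r) ∩ Q) ∩ (⋃ m, G m)).Nonempty := by
          have ho : IsOpen (interior M ∩ D.x ⁻¹' Q) :=
            isOpen_interior.inter (hQo.preimage hxc)
          obtain ⟨q', hq'o, hq'i⟩ := (h2 D).inter_open_nonempty _ ho ⟨q, hqM, hqQ⟩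
          have hq'1 : q' ∈ U1 := (hVU (hMV (interior_subset hq'o.1))).1
          exact ⟨D.x q', ⟨hU1s hq'1 hq'i, hq'o.2⟩,
            mem_iUnion.2 ⟨⟨q', hq'o.1, hq'i⟩, hGm ⟨q', hq'o.1, hq'i⟩⟩⟩
        obtain ⟨y, hyJ, hyG, hyM⟩ := hJ _ _ (isOpen_iUnion hGo) hMcl.isOpen_compl hcov hne
          ⟨y0, hy0J, hy0M⟩
        obtain ⟨m, hm⟩ := mem_iUnion.1 hyG
        exact hyM (hGY m ⟨hm, hK.subY hyJ.1.1⟩)
      refine ⟨Q, hQo, hqQ, ?_⟩
      intro y hy
      apply image_mono hMV
      by_cases hyC : y ∈ circ D.r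
      · obtain ⟨p, hp, rfl⟩ := hbij.surjOn hyC
        have hp1 : p ∈ interior M := by
          by_contra hp1
          exact (hQW hy.1).1 ⟨p, ⟨hp, hp1⟩, rfl⟩
        exact mem_image_of_mem _ (interior_subset hp1)
      · exact hJM ⟨⟨hy.2, hyC⟩, hy.1⟩
  choose! G hGo hGq hGK using key
  refine ⟨⋃ q ∈ V, G q, isOpen_biUnion hGo, ?_⟩
  apply subset_antisymm
  · rintro _ ⟨q, hq, rfl⟩
    exact ⟨mem_biUnion hq (hGq q hq), hmap (hVU hq)⟩
  · rintro y ⟨hyG, hyK⟩
    rw [mem_iUnion₂] at hyG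
    obtain ⟨q, hq, hyq⟩ := hyG
    exact hGK q hq ⟨hyq, hyK⟩

end Pool.Agent.H14.CMS
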