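import Pool.Agent.H60.CM.Targets

/-!
Module UIN: the immersion is open at interior points.
-/

set_option autoImplicit false

open Set Function MeasureTheory Filter Topology
open scoped Manifold ContDiff Matrix

namespace Pool.Agent.H14.CMS

open Pool.Agent.H60.CM

/-- the derivative of `(z, t) ↦ X z + t n` -/
noncomputable def dPsi (X' : E2 →L[ℝ] V3) (n : V3) : E2 × ℝ →L[ℝ] V3 :=
  X'.comp (ContinuousLinearMap.fst ℝ E2 ℝ) + (ContinuousLinearMap.snd ℝ E2 ℝ).smulRight n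

theorem dPsi_apply (X' : E2 →L[ℝ] V3) (n : V3) (z : E2 × ℝ) :
    dPsi X' n z = X' z.1 + z.2 • n := rfl

theorem e2_eq (v : E2) : v = v 0 • ee 0 + v 1 • ee 1 := by
  ext i
  fin_cases i <;> simp [ee]

theorem dPsi_inj (X' : E2 →L[ℝ] V3) (n : V3) (hn : n ⬝ᵥ n = 1) (h0 : n ⬝ᵥ X' (ee 0) = 0)
    (h1 : n ⬝ᵥ X' (ee 1) = 0) (hc : X' (ee 0) ⨯₃ X' (ee 1) ≠ 0) :
    Injective (dPsi X' n) := by
  rw [injective_iff_map_eq_zero]
  rintro ⟨v, s⟩ h
  rw [dPsi_apply] at h
  have hv : X' v = v 0 • X' (ee 0) + v 1 • X' (ee 1) := by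
    conv_lhs => rw [e2_eq v]
    rw [map_add, map_smul, map_smul]
  simp only at h
  rw [hv] at h
  have hs : s = 0 := by
    have := congrArg (fun w => n ⬝ᵥ w) h
    simpa [dotProduct_add, dotProduct_smul, h0, h1, hn] using this
  rw [hs, zero_smul, add_zero] at h
  have hv0 : v 0 = 0 := by
    have h2 := congrArg (fun w => w ⨯₃ X' (ee 1)) h
    simp only [map_add, map_smul, LinearMap.add_apply, LinearMap.smul_apply, cross_self,
      smul_zero, add_zero, map_zero, LinearMap.zero_apply] at h2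
    exact (smul_eq_zero.1 h2).resolve_right hc
  have hv1 : v 1 = 0 := by
    have h2 := congrArg (fun w => X' (ee 0) ⨯₃ w) h
    simp only [map_add, map_smul, cross_self, smul_zero, zero_add, map_zero] at h2
    exact (smul_eq_zero.1 h2).resolve_right hc
  have hv' : v = 0 := by
    rw [e2_eq v, hv0, hv1]
    simp
  rw [hv', hs]
  rfl

/-- the derivative as an equivalence -/
theorem dPsi_equiv (X' : E2 →L[ℝ] V3) (n : V3) (hi : Injective (dPsi X' n)) :
    ∃ e : (E2 × ℝ) ≃L[ℝ] V3, (e : (E2 × ℝ) →L[ℝ] V3) = dPsi X' n := by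
  have hf : Module.finrank ℝ (E2 × ℝ) = Module.finrank ℝ V3 := by
    rw [Module.finrank_prod, finrank_euclideanSpace_fin, Module.finrank_self,
      Module.finrank_fin_fun]
  refine ⟨(LinearEquiv.ofInjectiveOfFinrankEq (dPsi X' n : E2 × ℝ →ₗ[ℝ] V3) hi
    hf).toContinuousLinearEquiv, ?_⟩
  exact ContinuousLinearMap.ext fun z => rfl

theorem pf_UIN (h1 : T_PAT) (h2 : T_PDF) : T_UIN := by
  intro D α β γ hl hne q hq
  obtain ⟨O, ψ, y0, hP, hy0, hψ0, -⟩ := h1 D q univ hq isOpen_univ (mem_univ q)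
  obtain ⟨m00, m01, m10, m11, -, hF⟩ := h2 D O ψ hP y0 hy0
  obtain ⟨hXs, hX0, hX1⟩ := hF V3 D.x D.cmc.x_smooth
  set X : E2 → V3 := D.x ∘ ψ with hX
  set n : V3 := D.N q with hn
  have hnn : n ⬝ᵥ n = 1 := D.cmc.unit q
  have hX0' : fderiv ℝ X y0 (ee 0) = m00 • dd D.x q 0 + m01 • dd D.x q 1 := by
    rw [← hψ0]
    exact hX0
  have hX1' : fderiv ℝ X y0 (ee 1) = m10 • dd D.x q 0 + m11 • dd D.x q 1 := by
    rw [← hψ0]
    exact hX1
  have hn0 : n ⬝ᵥ fderiv ℝ X y0 (ee 0) = 0 := by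
    rw [hX0', dotProduct_add, dotProduct_smul, dotProduct_smul, hn, D.cmc.normal,
      D.cmc.normal]
    simp
  have hn1 : n ⬝ᵥ fderiv ℝ X y0 (ee 1) = 0 := by
    rw [hX1', dotProduct_add, dotProduct_smul, dotProduct_smul, hn, D.cmc.normal,
      D.cmc.normal]
    simp
  have hcr : fderiv ℝ X y0 (ee 0) ⨯₃ fderiv ℝ X y0 (ee 1) ≠ 0 := hP.imm y0 hy0
  have hinj := dPsi_inj (fderiv ℝ X y0) n hnn hn0 hn1 hcr
  obtain ⟨e, he⟩ := dPsi_equiv (fderiv ℝ X y0) n hinj
  have hXa : ContDiffAt ℝ ∞ X y0 := hXs.contDiffAt (hP.isOpen.mem_nhds hy0)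
  have hXd : HasFDerivAt X (fderiv ℝ X y0) y0 :=
    (hXa.differentiableAt (by simp)).hasFDerivAt
  -- the vector `w` is not orthogonal to the normal
  set w : V3 := (2 * α) • D.x q + β • e3 with hw
  have hw0 : w ≠ 0 := hne q
  have hwX : ∀ v : E2, w ⬝ᵥ fderiv ℝ X y0 v = 0 := by
    intro v
    have hcomp : ∀ i : Fin 3, HasFDerivAt (fun y => X y i)
        ((ContinuousLinearMap.proj i).comp (fderiv ℝ X y0)) y0 := fun i =>
      (hasFDerivAt_pi'.1 hXd) i
    have hd : HasFDerivAt (fun y => α * (X y 0 * X y 0 + X y 1 * X y 1 + X y 2 * X y 2) +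
        β * X y 2 + γ) _ y0 :=
      ((((((hcomp 0).mul (hcomp 0)).add ((hcomp 1).mul (hcomp 1))).add
        ((hcomp 2).mul (hcomp 2))).const_mul α).add ((hcomp 2).const_mul β)).add_const γ
    have hz : (fun y => α * (X y 0 * X y 0 + X y 1 * X y 1 + X y 2 * X y 2) +
        β * X y 2 + γ) = fun _ => (0 : ℝ) := by
      funext y
      have := hl (ψ y)
      simp only [dotProduct, Fin.sum_univ_three] at this
      exact this
    rw [hz] at hd
    have h0 := hd.unique (hasFDerivAt_const (0 : ℝ) y0)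
    have h3 := DFunLike.congr_fun h0 v
    have hx0 : D.x q = X y0 := by
      rw [← hψ0]
      rfl
    rw [hw, hx0]
    simp only [dotProduct, Fin.sum_univ_three, Pi.add_apply, Pi.smul_apply, smul_eq_mul, e3]
    simp only [_root_.add_apply, _root_.smul_apply,
      ContinuousLinearMap.comp_apply, ContinuousLinearMap.proj_apply, smul_eq_mul,
      _root_.zero_apply] at h3
    simp
    linarith
  have hwn : w ⬝ᵥ n ≠ 0 := by
    intro h0
    apply hw0
    obtain ⟨z, hz⟩ := e.surjective w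
    have hz' : dPsi (fderiv ℝ X y0) n z = w := by
      rw [← he]
      exact hz
    rw [dPsi_apply] at hz'
    rw [← dotProduct_self_eq_zero (v := w)]
    nth_rewrite 2 [← hz']
    rw [dotProduct_add, hwX, dotProduct_smul, h0]
    simp
  -- the map
  set Ψ : E2 × ℝ → V3 := fun z => X z.1 + z.2 • n with hΨ
  have hΨd : HasFDerivAt Ψ (e : (E2 × ℝ) →L[ℝ] V3) (y0, (0 : ℝ)) := by
    rw [he]
    have ha : HasFDerivAt (fun z : E2 × ℝ => X z.1)
        ((fderiv ℝ X y0).comp (ContinuousLinearMap.fst ℝ E2 ℝ)) (y0, (0 : ℝ)) :=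
      HasFDerivAt.comp (g := X) (f := Prod.fst) (y0, (0 : ℝ)) hXd hasFDerivAt_fst
    have hb : HasFDerivAt (fun z : E2 × ℝ => z.2 • n)
        ((ContinuousLinearMap.snd ℝ E2 ℝ).smulRight n) (y0, (0 : ℝ)) :=
      (hasFDerivAt_snd).smul_const n
    exact ha.add hb
  have hΨs : ContDiffAt ℝ ∞ Ψ (y0, (0 : ℝ)) := by
    have ha : ContDiffAt ℝ ∞ (fun z : E2 × ℝ => X z.1) (y0, (0 : ℝ)) :=
      ContDiffAt.comp (g := X) (f := Prod.fst) (y0, (0 : ℝ)) hXa contDiffAt_fst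
    exact ha.add (contDiffAt_snd.smul contDiffAt_const)
  set E := hΨs.toOpenPartialHomeomorph Ψ hΨd (by simp) with hE
  have hEc : (E : E2 × ℝ → V3) = Ψ := hΨs.toOpenPartialHomeomorph_coe hΨd (by simp)
  have hEs : (y0, (0 : ℝ)) ∈ E.source :=
    hΨs.mem_toOpenPartialHomeomorph_source hΨd (by simp)
  have hψc : ContinuousOn ψ O := hP.smooth.continuousOn
  have hXc : ContinuousAt X y0 := hXa.continuousAt
  -- the function `ℓ`
  have hell : ∀ (z : E2) (t : ℝ), α * (Ψ (z, t) ⬝ᵥ Ψ (z, t)) + β * Ψ (z, t) 2 + γ =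
      t * ((((2 * α) • X z + β • e3) ⬝ᵥ n) + α * t) := by
    intro z t
    have h3 := hl (ψ z)
    have h4 : D.x (ψ z) = X z := rfl
    rw [h4] at h3
    simp only [hΨ]
    simp only [dotProduct, Fin.sum_univ_three, Pi.add_apply, Pi.smul_apply, smul_eq_mul,
      e3] at h3 hnn ⊢
    simp
    linear_combination h3 + α * t ^ 2 * hnn
  have hev : ∀ᶠ z : E2 × ℝ in 𝓝 (y0, (0 : ℝ)), (z ∈ E.source ∧ z.1 ∈ O) ∧
      (((2 * α) • X z.1 + β • e3) ⬝ᵥ n) + α * z.2 ≠ 0 := by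
    refine Filter.Eventually.and (Filter.Eventually.and (E.open_source.mem_nhds hEs) ?_) ?_
    · exact continuousAt_fst.eventually (hP.isOpen.mem_nhds hy0)
    · have hXc' : ContinuousAt (fun z : E2 × ℝ => X z.1) (y0, (0 : ℝ)) :=
        ContinuousAt.comp (f := Prod.fst) (g := X) hXc continuousAt_fst
      have hdc : Continuous fun v : V3 => v ⬝ᵥ n := by
        simp only [dotProduct]
        fun_prop
      have hc1 : ContinuousAt (fun z : E2 × ℝ => (((2 * α) • X z.1 + β • e3) ⬝ᵥ n) + α * z.2)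
          (y0, (0 : ℝ)) := by
        apply ContinuousAt.add
        · exact hdc.continuousAt.comp (f := fun z : E2 × ℝ => (2 * α) • X z.1 + β • e3)
            ((hXc'.const_smul (2 * α)).add continuousAt_const)
        · exact (continuousAt_snd.const_mul α)
      apply hc1.eventually_ne
      have hx0 : X y0 = D.x q := by
        rw [← hψ0]
        rfl
      simp only [mul_zero, add_zero]
      rw [hx0]
      exact hwn
  obtain ⟨B, I, hBo, hyB, hIo, h0I, hBI⟩ := mem_nhds_prod_iff'.1 hev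
  have hBO : B ⊆ O := fun z hz => (hBI (mk_mem_prod hz h0I)).1.2
  have hΨinj : InjOn Ψ E.source := by
    rw [← hEc]
    exact E.injOn
  refine ⟨ψ '' B, hP.im B hBO hBo, ⟨y0, hyB, hψ0⟩, ?_, ?_⟩
  · rintro _ ⟨z, hz, rfl⟩ _ ⟨z', hz', rfl⟩ hzz
    have h3 : Ψ (z, 0) = Ψ (z', 0) := by
      simp only [hΨ, zero_smul, add_zero]
      exact hzz
    have h4 := hΨinj (hBI (mk_mem_prod hz h0I)).1.1 (hBI (mk_mem_prod hz' h0I)).1.1 h3
    rw [(Prod.mk.inj h4).1]
  · intro V hVU hVo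
    have hV'o : IsOpen (B ∩ (O ∩ ψ ⁻¹' V)) :=
      hBo.inter (hψc.isOpen_inter_preimage hP.isOpen hVo)
    have hsub : (B ∩ (O ∩ ψ ⁻¹' V)) ×ˢ I ⊆ E.source := by
      rintro z ⟨hz1, hz2⟩
      exact (hBI ⟨hz1.1, hz2⟩).1.1
    refine ⟨Ψ '' ((B ∩ (O ∩ ψ ⁻¹' V)) ×ˢ I), ?_, ?_⟩
    · rw [← hEc]
      exact E.isOpen_image_of_subset_source (hV'o.prod hIo) hsub
    · apply subset_antisymm
      · rintro _ ⟨v, hv, rfl⟩
        obtain ⟨z, hz, rfl⟩ := hVU hv
        refine ⟨⟨(z, 0), ⟨⟨hz, hBO hz, hv⟩, h0I⟩, ?_⟩, hl (ψ z)⟩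
        simp only [hΨ, zero_smul, add_zero]
        rfl
      · rintro _ ⟨⟨⟨z, t⟩, ⟨hz, ht⟩, rfl⟩, hy⟩
        have h3 := hell z t
        rw [mem_ofPred_eq] at hy
        rw [hy] at h3
        have h4 : ((((2 * α) • X z + β • e3) ⬝ᵥ n) + α * t) ≠ 0 :=
          (hBI (mk_mem_prod hz.1 ht)).2
        have h5 : t = 0 := (mul_eq_zero.1 h3.symm).resolve_right h4
        refine ⟨ψ z, hz.2.2, ?_⟩
        simp only [hΨ, h5, zero_smul, add_zero]
        rfl

end Pool.Agent.H14.CMS
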